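import Mathlib

namespace Pool.Agent.Results.MP_abc717_gt.Neg

open Set Filter Topology

/-- Points with countable support. -/
def Sig (I : Type*) : Set (I → ℝ) := {x | {i | x i ≠ 0}.Countable}

def c0 (Γ : Type*) : Set (Γ → ℝ) := {x | ∀ ε > 0, {γ | ε < |x γ|}.Finite}

/-- `K` embeds in a cube `[0,1]^Γ` so that `h(K) ∩ c₀(Γ)` is dense in `h(K)`. -/
def SemiEberlein (K : Type) [TopologicalSpace K] : Prop :=
  CompactSpace K ∧ T2Space K ∧ ∃ (Γ : Type) (h : K → Γ → ℝ), IsEmbedding h ∧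
    (∀ k γ, h k γ ∈ Icc (0 : ℝ) 1) ∧ range h ⊆ closure (range h ∩ c0 Γ)

abbrev I : Type := ℝ ⊕ {S : Set ℝ // S.Countable}

def K : Set (I → ℝ) := {u | (∀ i, u i = 0 ∨ u i = 1) ∧
  ∀ S : {S : Set ℝ // S.Countable}, ∀ γ ∈ S.1, u (.inr S) ≤ u (.inl γ)}

lemma K_sub : K ⊆ univ.pi fun _ => Icc (-1 : ℝ) 1 := fun u hu i _ => by
  rcases hu.1 i with h | h <;> rw [h] <;> constructor <;> norm_num

lemma K_compact : IsCompact K := by
  refine (isCompact_univ_pi fun _ => isCompact_Icc).of_isClosed_subset ?_ K_sub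
  simp only [K, ofPred_and, ofPred_forall, ofPred_or]
  refine (isClosed_iInter fun i => ?_).inter
    (isClosed_iInter fun S => isClosed_iInter fun γ => isClosed_iInter fun _ => ?_)
  · exact (isClosed_eq (continuous_apply i) continuous_const).union
      (isClosed_eq (continuous_apply i) continuous_const)
  · exact isClosed_le (continuous_apply _) (continuous_apply _)

lemma mem_cl {A : Set (I → ℝ)} {u : I → ℝ}
    (h : ∀ s : Set I, s.Finite → ∃ v ∈ A, ∀ i ∈ s, v i = u i) : u ∈ closure A := by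
  rw [mem_closure_iff_nhds]
  intro t ht
  rw [nhds_pi, Filter.mem_pi] at ht
  obtain ⟨s, s1, W, W1, W2⟩ := ht
  obtain ⟨v, v1, v2⟩ := h s s1
  exact ⟨v, W2 fun i hi => v2 i hi ▸ mem_of_mem_nhds (W1 i), v1⟩

def fl (u : I → ℝ) : I → ℝ
  | .inl γ => 1 - u (.inl γ)
  | .inr S => u (.inr S)

lemma fl_fl (u : I → ℝ) : fl (fl u) = u := by
  funext i; rcases i with γ | S <;> simp [fl]

lemma fl_cont : Continuous fl := continuous_pi fun i => by
  rcases i with γ | S
  · exact continuous_const.sub (continuous_apply _)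
  · exact continuous_apply _

open Classical in
lemma trunc {u : I → ℝ} (hu : u ∈ K) (s : Set I) :
    fl (s.indicator (fl u)) ∈ K ∧ ∀ i ∈ s, fl (s.indicator (fl u)) i = u i := by
  have h0 : ∀ i, 0 ≤ u i ∧ u i ≤ 1 := fun i => by
    rcases hu.1 i with h | h <;> rw [h] <;> constructor <;> norm_num
  refine ⟨⟨fun i => ?_, fun S γ hγ => ?_⟩, fun i hi => ?_⟩
  · have := hu.1 i
    rcases i with γ | S <;> simp only [fl, indicator] <;> split_ifs <;> simp [this]
  · have h1 := hu.2 S γ hγ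
    have h2 := h0 (.inr S)
    have h3 := h0 (.inl γ)
    simp only [fl, indicator]
    split_ifs <;> linarith [h2.1, h2.2, h3.1, h3.2]
  · rcases i with γ | S <;> simp [fl, hi]

theorem result : ∃ (I : Type) (K : Set (I → ℝ)), K ⊆ univ.pi (fun _ => Icc (-1 : ℝ) 1) ∧
    IsCompact K ∧ K ⊆ closure (Sig I ∩ K) ∧ SemiEberlein K ∧
    ∀ D ⊆ Sig I ∩ K, K ⊆ closure D → ∃ ε > 0, ∀ J : ℕ → Set I, (⋃ n, J n) = univ →
      ∃ n, ∃ x ∈ D, {i | i ∈ J n ∧ ε < |x i|}.Infinite := by
  classical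
  refine ⟨I, K, K_sub, K_compact, fun u hu => mem_cl fun s hs => ?_,
    ⟨isCompact_iff_compactSpace.1 K_compact, inferInstance, I, fun k => fl k.1, ?_, ?_, ?_⟩,
    fun D hD hd => ⟨1 / 2, one_half_pos, fun J hJ => ?_⟩⟩
  · let t : Set I := s ∪ ⋃ S ∈ Sum.inr ⁻¹' s, Sum.inl '' (S : {S : Set ℝ // S.Countable}).1
    have tc : t.Countable := hs.countable.union
      ((hs.preimage Sum.inr_injective.injOn).countable.biUnion fun S _ => S.2.image _)
    let s' : Set I := s ∪ (t ∩ range Sum.inl)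
    refine ⟨s'.indicator u, ⟨tc.mono fun i hi => ?_, fun i => ?_, fun S γ hγ => ?_⟩,
      fun i hi => indicator_of_mem (s := s') (Or.inl hi) _⟩
    · rcases mem_of_indicator_ne_zero hi with h | h
      · exact Or.inl h
      · exact h.1
    · by_cases h : i ∈ s'
      · rw [indicator_of_mem h]; exact hu.1 i
      · exact Or.inl (indicator_of_notMem h _)
    · by_cases h : Sum.inr S ∈ s'
      · have h1 : Sum.inr S ∈ s := h.resolve_right fun h => by simpa using h.2
        have h2 : Sum.inl γ ∈ s' := Or.inr ⟨Or.inr (mem_iUnion₂.2 ⟨S, h1, γ, hγ, rfl⟩), γ, rfl⟩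
        rw [indicator_of_mem h, indicator_of_mem h2]
        exact hu.2 S γ hγ
      · rw [indicator_of_notMem h]
        refine indicator_nonneg (fun i _ => ?_) _
        rcases hu.1 i with h | h <;> rw [h]
        exact zero_le_one
  · exact (IsEmbedding.of_leftInverse fl_fl fl_cont fl_cont).comp IsEmbedding.subtypeVal
  · intro k i
    have := k.2.1 i
    rcases i with γ | S <;> simp only [fl] <;> rcases this with h | h <;> rw [h] <;>
      constructor <;> norm_num
  · rintro _ ⟨k, rfl⟩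
    refine mem_cl fun s hs => ⟨s.indicator (fl k.1), ⟨⟨⟨_, (trunc k.2 s).1⟩, fl_fl _⟩,
      fun ε hε => hs.subset fun i hi => ?_⟩, fun i hi => indicator_of_mem hi _⟩
    refine mem_of_indicator_ne_zero (f := fl k.1) fun h => ?_
    rw [mem_ofPred_eq, h, abs_zero] at hi
    exact lt_asymm hε hi
  · have h1 : ∃ n, (Sum.inl ⁻¹' J n : Set ℝ).Infinite := by
      by_contra h
      push Not at h
      refine Cardinal.not_countable_real ((countable_iUnion fun n => (h n).countable).mono ?_)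
      rw [← preimage_iUnion, hJ]
      exact subset_rfl
    obtain ⟨n, hn⟩ := h1
    obtain ⟨S, S1, S2, S3⟩ := hn.exists_subset_countable_infinite
    have h2 : (fun _ => 1 : I → ℝ) ∈ K := ⟨fun _ => Or.inr rfl, fun _ _ _ => le_rfl⟩
    obtain ⟨x, x1, x2⟩ := mem_closure_iff.1 (hd h2) {u | 1 / 2 < u (.inr ⟨S, S2⟩)}
      (isOpen_lt continuous_const (continuous_apply _)) (by norm_num)
    refine ⟨n, x, x2, (S3.image Sum.inl_injective.injOn).mono ?_⟩
    rintro _ ⟨γ, hγ, rfl⟩
    exact ⟨S1 hγ, (x1.trans_le ((hD x2).2.2 ⟨S, S2⟩ γ hγ)).trans_le (le_abs_self _)⟩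

end Pool.Agent.Results.MP_abc717_gt.Neg
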